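import Pool.Agent.Helper40_Dio.AStmt

/-! # DIO, module AR1 (helper14) -/

set_option autoImplicit false

namespace Pool.Agent.DIO.H14

open Pool.Agent.DIO

theorem pos_of_mul_pos_right' {x y : ℤ} (h : 0 < x * y) (hy : 0 < y) : 0 < x := by
  by_contra hx
  have : x * y ≤ 0 := mul_nonpos_of_nonpos_of_nonneg (not_lt.mp hx) hy.le
  linarith

theorem ar1 : Ar1Statement := by
  intro A B γ δ K e hA hB hAδ hBγ hdet hK he hdvd
  have hγ : 0 < γ := lt_trans hB hBγ
  have hδ : 0 < δ := lt_trans hA hAδ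
  -- the two divisibilities
  have d1 : γ ∣ 2 * K * A + e * δ := by
    have h1 : γ ∣ K * (A * B * (A * γ + 1)) + e := dvd_trans (dvd_mul_right γ δ) hdvd
    obtain ⟨q, hq⟩ := h1
    refine ⟨q * δ - K * A * B * A * δ - K * A * A, ?_⟩
    have hBδ : B * δ = A * γ + 2 := by linarith
    have : K * (A * B * (A * γ + 1)) * δ + e * δ = γ * q * δ := by
      have := congrArg (fun t => t * δ) hq
      linarith [this, add_mul (K * (A * B * (A * γ + 1))) e δ]
    have e1 : K * (A * B * (A * γ + 1)) * δ = K * A * B * A * δ * γ + K * A * (B * δ) := by ring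
    rw [e1, hBδ] at this
    linarith [this, mul_comm γ (q * δ - K * A * B * A * δ - K * A * A)]
  have d2 : δ ∣ 2 * K * B + e * γ := by
    have h1 : δ ∣ K * (A * B * (A * γ + 1)) + e := dvd_trans (dvd_mul_left δ γ) hdvd
    obtain ⟨q, hq⟩ := h1
    refine ⟨q * γ - K * A * B * B * γ + K * B * B, ?_⟩
    have hAγ : A * γ = B * δ - 2 := by linarith
    have h2 : A * γ + 1 = B * δ - 1 := by linarith
    rw [h2] at hq
    have : K * (A * B * (B * δ - 1)) * γ + e * γ = δ * q * γ := by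
      have := congrArg (fun t => t * γ) hq
      linarith [this, add_mul (K * (A * B * (B * δ - 1))) e γ]
    have e1 : K * (A * B * (B * δ - 1)) * γ = K * A * B * B * γ * δ - K * B * (A * γ) := by ring
    rw [e1, hAγ] at this
    linarith [this, mul_comm δ (q * γ - K * A * B * B * γ + K * B * B)]
  obtain ⟨k1, hk1⟩ := d1
  obtain ⟨k2, hk2⟩ := d2
  have hk1' : k1 * γ = 2 * K * A + e * δ := by rw [hk1]; ring
  have hk2' : k2 * δ = 2 * K * B + e * γ := by rw [hk2]; ring
  have hKA : 0 < K * A := mul_pos hK hA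
  have hKB : 0 < K * B := mul_pos hK hB
  have p1 : 0 < k1 := by
    have : 0 < k1 * γ := by rw [hk1']; nlinarith [mul_nonneg he hδ.le]
    exact pos_of_mul_pos_right' this hγ
  have p2 : 0 < k2 := by
    have : 0 < k2 * δ := by rw [hk2']; nlinarith [mul_nonneg he hγ.le]
    exact pos_of_mul_pos_right' this hδ
  set S := 2 * K + e with hS
  have hSpos : 0 < S := by rw [hS]; linarith
  have u1 : k1 * γ ≤ S * δ := by
    rw [hk1', hS]
    nlinarith [mul_le_mul_of_nonneg_left hAδ.le (by linarith : (0:ℤ) ≤ 2 * K)]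
  have u2 : k2 * δ ≤ S * γ := by
    rw [hk2', hS]
    nlinarith [mul_le_mul_of_nonneg_left hBγ.le (by linarith : (0:ℤ) ≤ 2 * K)]
  have v1 : γ ≤ S * δ := by nlinarith
  have v2 : δ ≤ S * γ := by nlinarith
  have w1 : k1 ≤ S ^ 2 := by
    have : k1 * γ ≤ S ^ 2 * γ := by
      calc k1 * γ ≤ S * δ := u1
        _ ≤ S * (S * γ) := mul_le_mul_of_nonneg_left v2 hSpos.le
        _ = S ^ 2 * γ := by ring
    exact le_of_mul_le_mul_right this hγ
  have w2 : k2 ≤ S ^ 2 := by
    have : k2 * δ ≤ S ^ 2 * δ := by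
      calc k2 * δ ≤ S * γ := u2
        _ ≤ S * (S * δ) := mul_le_mul_of_nonneg_left v1 hSpos.le
        _ = S ^ 2 * δ := by ring
    exact le_of_mul_le_mul_right this hδ
  refine ⟨k1, k2, p1, p2, hk1', hk2', w1, w2, v2, ?_⟩
  have q1 : (k1 * k2 - e ^ 2) * γ = 2 * K * (k2 * A + e * B) := by
    have : (k1 * k2 - e ^ 2) * γ = k2 * (k1 * γ) - e ^ 2 * γ := by ring
    rw [this, hk1']
    have : k2 * (2 * K * A + e * δ) = 2 * K * A * k2 + e * (k2 * δ) := by ring
    rw [this, hk2']; ring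
  have q2 : (k1 * k2 - e ^ 2) * δ = 2 * K * (e * A + k1 * B) := by
    have : (k1 * k2 - e ^ 2) * δ = k1 * (k2 * δ) - e ^ 2 * δ := by ring
    rw [this, hk2']
    have : k1 * (2 * K * B + e * γ) = 2 * K * B * k1 + e * (k1 * γ) := by ring
    rw [this, hk1']; ring
  have hM : 1 ≤ k1 * k2 - e ^ 2 := by
    have : 0 < (k1 * k2 - e ^ 2) * γ := by
      rw [q1]
      have : 0 < k2 * A + e * B := by nlinarith [mul_pos p2 hA, mul_nonneg he hB.le]
      positivity
    have := pos_of_mul_pos_right' this hγ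
    omega
  have r1 : γ ≤ 2 * K * (k2 * A + e * B) := by rw [← q1]; nlinarith
  have r2 : δ ≤ 2 * K * (e * A + k1 * B) := by rw [← q2]; nlinarith
  have hAB : A ≤ S * B := by
    have : A * γ ≤ (S * B) * γ := by
      calc A * γ ≤ B * δ := by linarith
        _ ≤ B * (S * γ) := mul_le_mul_of_nonneg_left v2 hB.le
        _ = (S * B) * γ := by ring
    exact le_of_mul_le_mul_right this hγ
  have hBA : B ≤ (S + 1) * A := by
    have hδ2 : 2 ≤ δ := by linarith
    have : B * δ ≤ ((S + 1) * A) * δ := by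
      have h1 : B * δ = A * γ + 2 := by linarith
      have h2 : A * γ ≤ A * (S * δ) := mul_le_mul_of_nonneg_left v1 hA.le
      have h3 : (2:ℤ) ≤ A * δ := by nlinarith
      calc B * δ = A * γ + 2 := h1
        _ ≤ A * (S * δ) + A * δ := by linarith
        _ = ((S + 1) * A) * δ := by ring
    exact le_of_mul_le_mul_right this hδ
  have s1 : γ ≤ 2 * K * ((e + S ^ 3) * B) := by
    refine r1.trans (mul_le_mul_of_nonneg_left ?_ (by linarith))
    have h1 : k2 * A ≤ S ^ 2 * (S * B) := mul_le_mul w2 hAB hA.le (by positivity)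
    calc k2 * A + e * B ≤ S ^ 2 * (S * B) + e * B := by linarith
      _ = (e + S ^ 3) * B := by ring
  have s2 : δ ≤ 2 * K * ((e + S ^ 2 * (S + 2)) * A) := by
    refine r2.trans (mul_le_mul_of_nonneg_left ?_ (by linarith))
    have h1 : k1 * B ≤ S ^ 2 * ((S + 1) * A) := mul_le_mul w1 hBA hB.le (by positivity)
    have h2 : S ^ 2 * ((S + 1) * A) ≤ S ^ 2 * ((S + 2) * A) := by
      apply mul_le_mul_of_nonneg_left _ (by positivity)
      nlinarith
    calc e * A + k1 * B ≤ e * A + S ^ 2 * ((S + 2) * A) := by linarith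
      _ = (e + S ^ 2 * (S + 2)) * A := by ring
  have hS3 : 0 ≤ S ^ 3 := by positivity
  have hS2 : 0 ≤ S ^ 2 * (S + 2) := by positivity
  calc γ * δ ≤ (2 * K * ((e + S ^ 3) * B)) * (2 * K * ((e + S ^ 2 * (S + 2)) * A)) :=
        mul_le_mul s1 s2 hδ.le (by positivity)
    _ = 4 * K ^ 2 * (e + S ^ 3) * (e + S ^ 2 * (S + 2)) * (A * B) := by ring

end Pool.Agent.DIO.H14
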