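import Pool.Agent.Helper40_Dio.AStmt

/-! # DIO, module NEU (helper14) -/

set_option autoImplicit false

namespace Pool.Agent.DIO.H14

open Pool.Agent.DIO

/-- the value of `z` -/
def zv (x y e : ℕ) : ℕ := x + y + e + 2 * x * y * e + 2 * rst x y e

/-- the triples with bounded product -/
def TN (N : ℕ) : Set (ℕ × ℕ × ℕ) := {t | DTriple t.1 t.2.1 t.2.2 ∧ t.1 * t.2.1 * t.2.2 ≤ N}

theorem TN_finite (N : ℕ) : (TN N).Finite := by
  apply Set.Finite.subset ((Finset.range (N+1) ×ˢ (Finset.range (N+1) ×ˢ Finset.range (N+1))).finite_toSet)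
  rintro ⟨a, b, c⟩ ⟨⟨ha, hab, hbc, _⟩, hN⟩
  simp only at ha hab hbc hN
  have hb : 0 < b := lt_trans ha hab
  have hc : 0 < c := lt_trans hb hbc
  have h1 : c ≤ a * b * c := Nat.le_mul_of_pos_left c (Nat.mul_pos ha hb)
  simp only [Finset.coe_product, Finset.coe_range, Set.mem_prod, Set.mem_Iio]
  refine ⟨?_, ?_, ?_⟩ <;> omega

theorem neu (hGap : GapStatement) (hNpc : NpcStatement) : NeuStatement := by
  intro ε hε
  obtain ⟨C, hC⟩ := hNpc ε hε
  refine ⟨3 * C, fun N hN => ?_⟩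
  set Z : Set (ℕ × ℕ × ℕ) := {t | DTriple t.1 t.2.1 t.2.2 ∧ (¬ ∃ r, Euler t.1 t.2.1 t.2.2 r) ∧
      t.2.2 ≤ N} with hZ
  let g0 : ℕ × ℕ × ℕ → ℕ × ℕ × ℕ := fun t => (t.2.1, t.2.2, zv t.2.1 t.2.2 t.1)
  let g1 : ℕ × ℕ × ℕ → ℕ × ℕ × ℕ := fun t => (t.1, t.2.2, zv t.1 t.2.2 t.2.1)
  let g2 : ℕ × ℕ × ℕ → ℕ × ℕ × ℕ := fun t => (t.1, t.2.1, zv t.1 t.2.1 t.2.2)
  have hsub : Z ⊆ (g0 '' TN N ∪ g1 '' TN N) ∪ g2 '' TN N := by
    rintro ⟨x, y, z⟩ ⟨hT, hE, hzN⟩
    simp only at hT hE hzN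
    rcases hGap x y z hT with h | ⟨e, he, hex, hey, hsx, hsy, hz, hlt⟩
    · exact absurd h hE
    · obtain ⟨hx, hxy, hyz, sxy, _, _⟩ := hT
      have hprod : x * y * e ≤ N := by
        have : 4 * x * y * e = 4 * (x * y * e) := by ring
        omega
      rcases lt_trichotomy e x with h | h | h
      · left; left
        refine ⟨(e, x, y), ⟨⟨he, h, hxy, ?_, ?_, sxy⟩, ?_⟩, ?_⟩
        · simpa [mul_comm] using hsx
        · simpa [mul_comm] using hsy
        · simp only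
          calc e * x * y = x * y * e := by ring
            _ ≤ N := hprod
        · simp only [g0, zv]; rw [hz]
      · exact absurd h hex
      · rcases lt_trichotomy e y with h' | h' | h'
        · left; right
          refine ⟨(x, e, y), ⟨⟨hx, h, h', hsx, sxy, ?_⟩, ?_⟩, ?_⟩
          · simpa [mul_comm] using hsy
          · simp only
            calc x * e * y = x * y * e := by ring
              _ ≤ N := hprod
          · simp only [g1, zv]; rw [hz]
        · exact absurd h' hey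
        · right
          refine ⟨(x, y, e), ⟨⟨hx, hxy, h', sxy, hsx, hsy⟩, hprod⟩, ?_⟩
          simp only [g2, zv]; rw [hz]
  have hf : ((g0 '' TN N ∪ g1 '' TN N) ∪ g2 '' TN N).Finite :=
    (((TN_finite N).image g0).union ((TN_finite N).image g1)).union ((TN_finite N).image g2)
  have hcard : Z.ncard ≤ 3 * (TN N).ncard := by
    calc Z.ncard ≤ ((g0 '' TN N ∪ g1 '' TN N) ∪ g2 '' TN N).ncard := Set.ncard_le_ncard hsub hf
      _ ≤ (g0 '' TN N ∪ g1 '' TN N).ncard + (g2 '' TN N).ncard := Set.ncard_union_le _ _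
      _ ≤ ((g0 '' TN N).ncard + (g1 '' TN N).ncard) + (g2 '' TN N).ncard := by
          have := Set.ncard_union_le (g0 '' TN N) (g1 '' TN N)
          omega
      _ ≤ 3 * (TN N).ncard := by
          have h0 := Set.ncard_image_le (f := g0) (TN_finite N)
          have h1 := Set.ncard_image_le (f := g1) (TN_finite N)
          have h2 := Set.ncard_image_le (f := g2) (TN_finite N)
          omega
  have hCN : (((TN N).ncard : ℕ) : ℝ) ≤ C * (N : ℝ) ^ (1 / 3 + ε) := hC N hN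
  calc ((Z.ncard : ℕ) : ℝ) ≤ ((3 * (TN N).ncard : ℕ) : ℝ) := by exact_mod_cast hcard
    _ = 3 * (((TN N).ncard : ℕ) : ℝ) := by push_cast; ring
    _ ≤ 3 * (C * (N : ℝ) ^ (1 / 3 + ε)) := by linarith
    _ = 3 * C * (N : ℝ) ^ (1 / 3 + ε) := by ring

end Pool.Agent.DIO.H14
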